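import Pool.Agent.Q308.GX.Main

/-!
# Units for the conductors `1` and `2^K`, `K ≥ 2`
-/

set_option autoImplicit false

namespace Pool.Agent.Q308.GX

open Finset Polynomial Pool.Agent.Y18.GX Pool.Agent.Q22.GX

/-- `(1 - ψ(p) p^(m-1)) B_{m,ψ} / m` for `ψ` modulo `2^K`, `K ≥ 2` -/
theorem unit_big2 {p : ℕ} {E : List (ℕ × ℕ)} (hp : p.Prime) (h5 : 5 ≤ p) (h8 : p % 8 = 5)
    (hchk : Checked p E)
    {K m : ℕ} (hK : 2 ≤ K) (hm1 : 1 ≤ m) (hmp : m < p) (hE : (2 ^ K, m) ∉ E) (h21 : K = 2 → m ≠ 1)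
    (ψ : DirichletCharacter ℂ (1 * 2 ^ K))
    (hc : 2 ^ K ∣ ψ.conductor) (hpar : ψ (-1) = (-1) ^ m) :
    IsUnitAt p ((1 - ψ (p : ZMod (1 * 2 ^ K)) * (p : ℂ) ^ (m - 1)) * (((1 * 2 ^ K : ℕ) : ℂ) ^ (m - 1) *
      ∑ a ∈ range (1 * 2 ^ K), ψ (a : ZMod (1 * 2 ^ K)) *
        (((Polynomial.bernoulli m).eval ((a : ℚ) / (1 * 2 ^ K : ℕ)) : ℚ) : ℂ)) / m) := by
  have hcop : Nat.Coprime 1 (2 ^ K) := Nat.coprime_one_left _
  have hprim := snd_prim hcop Nat.prime_two hK one_ne_zero ψ hc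
  have hN1 : 1 * 2 ^ K ≠ 1 := by
    rw [one_mul]
    exact (Nat.one_lt_pow (by omega) (by norm_num)).ne'
  have hψ1 : ψ ≠ 1 := by
    have : NeZero (1 * 2 ^ K) := ⟨by positivity⟩
    intro h
    rw [h, DirichletCharacter.conductor_one] at hc
    have := Nat.dvd_one.1 hc
    exact (Nat.one_lt_pow (by omega) (by norm_num : 1 < 2)).ne' this
  have hfst : ∀ a, fst hcop ψ a = 1 := fun a => by rw [Subsingleton.elim (α := ZMod 1) a 1, map_one]
  have hsum : ∑ a ∈ range (1 * 2 ^ K), fst hcop ψ (a : ZMod 1) * snd hcop ψ (a : ZMod (2 ^ K)) = 0 := by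
    rw [← sum_char (by positivity) ψ hψ1]
    exact Finset.sum_congr rfl fun a _ => (dec_nat hcop ψ a).symm
  obtain ⟨u, hu⟩ : ∃ u, p ^ 1 - 1 = 2 ^ 2 * u := ⟨(p - 1) / 4, by rw [pow_one]; omega⟩
  have huc : u.Coprime 2 := by
    rw [Nat.coprime_comm, Nat.Prime.coprime_iff_not_dvd Nat.prime_two]
    rw [pow_one] at hu
    omega
  have hA : Adm 2 (p ^ 1) := Or.inr ⟨rfl, by rw [pow_one]; omega⟩
  have key := unit_gen hp (g := 1) (m := m) (fst hcop ψ) (snd hcop ψ) Nat.prime_two hK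
    (fun a => by rw [hfst, one_pow]) hprim (fun h => by have := Nat.le_of_dvd (by norm_num) h; omega) (by omega)
    (by rw [← dec_neg, hpar]) hm1 hmp
    (fun k _ _ χ₁ χ₂ h1 h2 h3 => by
      have : Fact p.Prime := ⟨hp⟩
      have h2k : ((2 : ℕ) : k) ≠ 0 := by
        exact_mod_cast two_ne hp h5 k
      have hχ : ∀ x : ZMod 1, χ₁ x = 1 := fun x => by rw [Subsingleton.elim x 1, map_one]
      constructor
      · rcases (show K = 2 ∨ K = 3 ∨ 4 ≤ K by omega) with h | h | hK4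
        · subst h
          exact low_core2 hp h5 hchk hm1 hmp hE χ₁ χ₂ h2 h3
        · subst h
          exact low_core3 hp h5 hchk hm1 hmp hE χ₁ χ₂ h2 h3
        · rcases Nat.lt_or_ge (2 ^ K) (16 * m) with hsz | hsz
          · exact small_core4 hp h5 h8 hchk hK4 hm1 hmp hsz hE χ₁ χ₂ h2 h3
          · refine core χ₁ χ₂ (by omega) hA (n := 2) (by norm_num) (by omega) (by norm_num) hu huc h1 h2
              (by norm_num) (by norm_num)
              (by simp) h2k (FF m) _ (fun x => FF_aeval_refl m x) h3 (FF_natDegree m) ?_ hm1 hmp ?_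
            · rw [FF_coeff m hm1]
              have := fact_ne (k := k) (p := p) m hmp
              push_cast
              exact this
            · norm_num
              omega
      · intro hm
        rcases (show K = 2 ∨ K = 3 ∨ 4 ≤ K by omega) with h | h | hK4
        · exact absurd hm (h21 h)
        · subst h
          have h6 : ((p : ℕ) : ZMod (2 ^ 3)) = ((1 + 2 ^ (3 - 1) : ℕ) : ZMod (2 ^ 3)) := by
            have h7 : ((p % 8 : ℕ) : ZMod (2 ^ 3)) = (p : ZMod (2 ^ 3)) := ZMod.natCast_mod p (2 ^ 3)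
            rw [← h7, h8]
            rfl
          rw [hχ, one_mul, h6]
          exact h2
        · have h16 : 2 ^ 4 ≤ 2 ^ K := Nat.pow_le_pow_right (by norm_num) hK4
          exact euler χ₁ χ₂ hA (n := 2) (by norm_num) (by omega) (by norm_num) hu huc h1 h2 (by omega)
            (by norm_num; omega)) hsum
  simp only [← dec_nat] at key
  exact key

/-- `(1 - p^(m-1)) B_m / m`, `m` even -/
lemma unit_zero2 {p : ℕ} {E : List (ℕ × ℕ)} (hp : p.Prime) (h5 : 5 ≤ p) (hchk : Checked p E)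
    {m : ℕ} (hm : m % 2 = 0) (hm1 : 1 ≤ m) (hmp : m + 1 < p) (hE : (1, m) ∉ E) :
    IsUnitAt p ((1 - (p : ℂ) ^ (m - 1)) * ((_root_.bernoulli m : ℚ) : ℂ) / m) := by
  have : Fact p.Prime := ⟨hp⟩
  have h1 : IsCoprime (p : ℤ) (w m) := by
    obtain ⟨e, er, Q4, Q8, j', Gs, herl, her, he, -, -, -, -, hT, -⟩ := check_sound hp h5 hchk hm1 (by omega) (ZMod p)
    unfold testL at hT
    simp only [Bool.and_eq_true, Bool.or_eq_true] at hT
    obtain ⟨-, -, -, hT⟩ := hT
    have h1 : e % p ≠ 0 := by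
      rcases hT with h | h | h | h
      · have := Nat.eq_of_beq_eq_true h
        have h' : m % 2 = 1 := this
        omega
      · have := Nat.eq_of_beq_eq_true h
        have h' : m + 1 = p := this
        omega
      · exact absurd (exc_sound _ _ _ h) hE
      · have h2 := congrArg Bool.not h
        rw [Bool.not_not] at h2
        exact Nat.ne_of_beq_eq_false h2
    have h2 : (e : ZMod p) ≠ 0 := by
      intro h0
      exact h1 (Nat.mod_eq_zero_of_dvd ((CharP.cast_eq_zero_iff (ZMod p) p e).1 h0))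
    rw [he (by omega)] at h2
    refine int_ne (k := ZMod p) (p := p) ?_
    intro h0
    apply h2
    unfold eps
    rw [h0, zero_div]
  have h2 : IsCoprime (p : ℤ) (1 - (p : ℤ) ^ (m - 1)) := by
    refine ⟨(p : ℤ) ^ (m - 2), 1, ?_⟩
    have : (p : ℤ) ^ (m - 1) = (p : ℤ) ^ (m - 2) * p := by
      rw [← pow_succ]
      congr 1
      omega
    rw [this]
    ring
  have h3 : IsCoprime (p : ℤ) (((m + 1).factorial : ℕ) * m : ℤ) :=
    (coprime_fact hp hmp).mul_right (coprime_nat hp (by omega) (by omega))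
  have h4 := h2.mul_right h1
  refine unit_rat _ _ (ne_zero_of_coprime hp h4) (ne_zero_of_coprime hp h3) h4 h3 ?_
  have h5' := w_spec m
  have h6 : ((w m : ℤ) : ℂ) = (((m + 1).factorial : ℕ) : ℂ) * ((_root_.bernoulli m : ℚ) : ℂ) := by
    exact_mod_cast congrArg (fun q : ℚ => (q : ℂ)) h5'
  have h7 : (((m + 1).factorial : ℕ) : ℂ) ≠ 0 := by exact_mod_cast (Nat.factorial_pos _).ne'
  have h8 : (m : ℂ) ≠ 0 := by exact_mod_cast (by omega : m ≠ 0)
  push_cast
  rw [h6]
  field_simp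

end Pool.Agent.Q308.GX
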