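import Pool.Agent.Q308.GX.Chk

/-!
# The tests, carried out in the kernel
-/

set_option autoImplicit false
set_option maxRecDepth 100000

namespace Pool.Agent.Q308.GX

lemma C5_0 : check 5 2 [(4, 1), (16, 2)] 1 5 = true := by decide +kernel

lemma C5 : Checked 5 [(4, 1), (16, 2)] := by
  intro m h1 h2
  exact ⟨_, _, _, by omega, h2, le_rfl, C5_0⟩

lemma C13_0 : check 13 4 [(4, 1), (8, 12), (16, 5), (16, 12), (32, 6)] 1 13 = true := by decide +kernel

lemma C13 : Checked 13 [(4, 1), (8, 12), (16, 5), (16, 12), (32, 6)] := by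
  intro m h1 h2
  exact ⟨_, _, _, by omega, h2, le_rfl, C13_0⟩

lemma C29_0 : check 29 5 [(4, 1), (16, 6), (16, 14), (16, 18), (16, 27), (16, 28)] 1 29 = true := by decide +kernel

lemma C29 : Checked 29 [(4, 1), (16, 6), (16, 14), (16, 18), (16, 27), (16, 28)] := by
  intro m h1 h2
  exact ⟨_, _, _, by omega, h2, le_rfl, C29_0⟩

lemma C37_0 : check 37 6 [(1, 32), (4, 1), (8, 34), (16, 16), (16, 20), (16, 29), (16, 36)] 1 37 = true := by decide +kernel

lemma C37 : Checked 37 [(1, 32), (4, 1), (8, 34), (16, 16), (16, 20), (16, 29), (16, 36)] := by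
  intro m h1 h2
  exact ⟨_, _, _, by omega, h2, le_rfl, C37_0⟩

lemma C53_0 : check 53 6 [(4, 1), (16, 25), (16, 44), (32, 4)] 1 53 = true := by decide +kernel

lemma C53 : Checked 53 [(4, 1), (16, 25), (16, 44), (32, 4)] := by
  intro m h1 h2
  exact ⟨_, _, _, by omega, h2, le_rfl, C53_0⟩

lemma C61_0 : check 61 6 [(4, 1), (4, 7)] 1 61 = true := by decide +kernel

lemma C61 : Checked 61 [(4, 1), (4, 7)] := by
  intro m h1 h2
  exact ⟨_, _, _, by omega, h2, le_rfl, C61_0⟩

end Pool.Agent.Q308.GX
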