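import Pool.Agent.Q308.GX.Chk

/-!
# The tests, carried out in the kernel
-/

set_option autoImplicit false
set_option maxRecDepth 100000

namespace Pool.Agent.Q308.GX

lemma C101_0 : check 101 7 [(1, 68), (4, 1), (4, 63)] 1 71 = true := by decide +kernel

lemma C101_1 : check 101 7 [(1, 68), (4, 1), (4, 63)] 71 101 = true := by decide +kernel

lemma C101 : Checked 101 [(1, 68), (4, 1), (4, 63)] := by
  intro m h1 h2
  rcases Nat.lt_or_ge m 71 with h3 | h3
  · exact ⟨_, _, _, h1, h3, by norm_num, C101_0⟩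
  exact ⟨_, _, _, by omega, h2, le_rfl, C101_1⟩

lemma C109_0 : check 109 7 [(4, 1), (16, 50), (16, 59), (16, 80)] 1 77 = true := by decide +kernel

lemma C109_1 : check 109 7 [(4, 1), (16, 50), (16, 59), (16, 80)] 77 109 = true := by decide +kernel

lemma C109 : Checked 109 [(4, 1), (16, 50), (16, 59), (16, 80)] := by
  intro m h1 h2
  rcases Nat.lt_or_ge m 77 with h3 | h3
  · exact ⟨_, _, _, h1, h3, by norm_num, C109_0⟩
  exact ⟨_, _, _, by omega, h2, le_rfl, C109_1⟩

end Pool.Agent.Q308.GX
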