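import Pool.Agent.Q22.GX.Chk

/-!
# The tests for the conductors `2^K`
-/

set_option autoImplicit false

namespace Pool.Agent.Q308.GX

open Finset Pool.Agent.Q22.GX

/-- four lists -/
abbrev Quad : Type := List ℕ × List ℕ × List ℕ × List ℕ

/-- four values which are not the coefficients of a vanishing sum over the fourth roots of unity -/
def bad4 (p c0 c1 c2 c3 : ℕ) : Bool :=
  force (Nat.mod c0 p) fun c0 => force (Nat.mod c1 p) fun c1 => force (Nat.mod c2 p) fun c2 =>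
    force (Nat.mod c3 p) fun c3 =>
    not (Nat.beq (Nat.mod (Nat.add (Nat.add (Nat.mul c0 c0) (Nat.mul c1 c1))
        (Nat.add (Nat.mul c2 c2) (Nat.mul c3 c3))) p)
      (Nat.mod (Nat.mul 2 (Nat.add (Nat.mul c0 c2) (Nat.mul c1 c3))) p))

/-- `(N, m)` is in the list of exceptions -/
def exc : List (ℕ × ℕ) → ℕ → ℕ → Bool
  | [], _, _ => false
  | q :: l, N, m => (Nat.beq q.1 N && Nat.beq q.2 m) || exc l N m

/-- one of the classes has a sum which is not zero -/
def anyQ (p : ℕ) (er : List ℕ) : List Quad → Bool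
  | [] => false
  | q :: l => bad4 p (dot er q.1) (dot er q.2.1) (dot er q.2.2.1) (dot er q.2.2.2) || anyQ p er l

/-- the tests for the conductors `2^K`, `K ≥ 4` -/
def test4 (p m : ℕ) (er : List ℕ) (E : List (ℕ × ℕ)) : List (ℕ × List Quad) → Bool
  | [] => true
  | q :: Gs => (Nat.ble (Nat.mul 16 m) q.1 || (exc E q.1 m || anyQ p er q.2)) && test4 p m er E Gs

/-- the lists for the arguments `(b + M t) / N`, `t = 0, 1, 2, 3` -/
def mkQ (p b M N : ℕ) (cont : Quad → Bool) : Bool :=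
  mkX p b M N 0 fun x0 y0 => mkL p x0 y0 fun G0 =>
  mkX p b M N 1 fun x1 y1 => mkL p x1 y1 fun G1 =>
  mkX p b M N 2 fun x2 y2 => mkL p x2 y2 fun G2 =>
  mkX p b M N 3 fun x3 y3 => mkL p x3 y3 fun G3 => cont (G0, G1, G2, G3)

/-- the lists for all classes `b` of a list -/
def mkBs (p M N : ℕ) (cont : List Quad → Bool) : List ℕ → List Quad → Bool
  | [], acc => cont acc
  | b :: bs, acc => (Nat.ble (Nat.succ b) M && Nat.beq (Nat.mod b 4) 1) &&
      mkQ p b M N fun q => mkBs p M N cont bs (q :: acc)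

/-- the classes which are used -/
def bsOf (N : ℕ) : List ℕ := if Nat.ble 64 N then [1, 5, 9, 13] else if Nat.ble 32 N then [1, 5] else [1]

/-- the levels `2^4, 2^5, …` below `16 (p - 1)` -/
def mkAll4 (p : ℕ) (cont : List (ℕ × List Quad) → Bool) : ℕ → ℕ → List (ℕ × List Quad) → Bool
  | 0, M, acc => Nat.ble (Nat.mul 16 (p - 1)) (4 * M) && cont acc
  | s + 1, M, acc => force (4 * M) fun N =>
      mkBs p M N (fun l => force (2 * M) fun M' => mkAll4 p cont s M' ((N, l) :: acc)) (bsOf N) []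

/-- different modulo `p` -/
def neq (p a b : ℕ) : Bool := not (Nat.beq (Nat.mod a p) (Nat.mod b p))

/-- the tests for the conductors `1`, `4`, `8` -/
def testL (p m e : ℕ) (er : List ℕ) (E : List (ℕ × ℕ)) (Q4 Q8 : Quad) : Bool :=
  (Nat.beq (Nat.mod m 2) 0 || (exc E 4 m || neq p (dot er Q4.1) (dot er Q4.2.1))) &&
  ((exc E 8 m || (Nat.beq (Nat.mod m 2) 1 ||
      neq p (Nat.add (dot er Q8.1) (dot er Q8.2.2.2)) (Nat.add (dot er Q8.2.1) (dot er Q8.2.2.1)))) &&
  ((exc E 8 m || (Nat.beq (Nat.mod m 2) 0 ||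
      neq p (Nat.add (dot er Q8.1) (dot er Q8.2.1)) (Nat.add (dot er Q8.2.2.1) (dot er Q8.2.2.2)))) &&
   (Nat.beq (Nat.mod m 2) 1 || (Nat.beq (Nat.succ m) p || (exc E 1 m || not (Nat.beq (Nat.mod e p) 0))))))

/-- `m` is not in `[lo, hi)` -/
def skip (lo hi m : ℕ) : Bool := Nat.ble (Nat.succ m) lo || Nat.ble hi m

/-- the whole test for the `m` with `lo ≤ m < hi` -/
def check (p s : ℕ) (E : List (ℕ × ℕ)) (lo hi : ℕ) : Bool :=
  mkL p 1 1 fun F => mkQ p 1 2 4 fun Q4 => mkQ p 1 2 8 fun Q8 =>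
    mkAll4 p (fun Gs => loop p F.tail (fun m e er => skip lo hi m ||
      (testL p m e er E Q4 Q8 && test4 p m er E Gs)) (hi - 1) 1 [1]) s 4 []

/-- all `m` are covered by tests -/
def Checked (p : ℕ) (E : List (ℕ × ℕ)) : Prop :=
  ∀ m : ℕ, 1 ≤ m → m < p → ∃ s lo hi : ℕ, lo ≤ m ∧ m < hi ∧ hi ≤ p ∧ check p s E lo hi = true

end Pool.Agent.Q308.GX
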