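import Pool.Agent.Q308.GX.Main

/-!
# Units for the conductors `2^K ≥ 16 m`, all primes `p ≡ 5` modulo `8`
-/

set_option autoImplicit false

namespace Pool.Agent.Q308.GX

open Finset Polynomial Pool.Agent.Y18.GX Pool.Agent.Q22.GX

/-- `(1 - ψ(p) p^(m-1)) B_{m,ψ} / m` for `ψ` modulo `2^K ≥ 16 m` -/
theorem unit_large {p : ℕ} (hp : p.Prime) (h8 : p % 8 = 5)
    {K m : ℕ} (hm1 : 1 ≤ m) (hmp : m < p) (hsz : 16 * m ≤ 2 ^ K)
    (ψ : DirichletCharacter ℂ (1 * 2 ^ K))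
    (hc : 2 ^ K ∣ ψ.conductor) (hpar : ψ (-1) = (-1) ^ m) :
    IsUnitAt p ((1 - ψ (p : ZMod (1 * 2 ^ K)) * (p : ℂ) ^ (m - 1)) * (((1 * 2 ^ K : ℕ) : ℂ) ^ (m - 1) *
      ∑ a ∈ range (1 * 2 ^ K), ψ (a : ZMod (1 * 2 ^ K)) *
        (((Polynomial.bernoulli m).eval ((a : ℚ) / (1 * 2 ^ K : ℕ)) : ℚ) : ℂ)) / m) := by
  have h5 : 5 ≤ p := by
    by_contra hcon
    omega
  have hK : 4 ≤ K := by
    by_contra hcon
    have h1 : 2 ^ K ≤ 2 ^ 3 := Nat.pow_le_pow_right (by norm_num) (by omega)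
    omega
  have hcop : Nat.Coprime 1 (2 ^ K) := Nat.coprime_one_left _
  have hprim := snd_prim hcop Nat.prime_two (by omega) one_ne_zero ψ hc
  have hψ1 : ψ ≠ 1 := by
    have : NeZero (1 * 2 ^ K) := ⟨by positivity⟩
    intro h
    rw [h, DirichletCharacter.conductor_one] at hc
    have := Nat.dvd_one.1 hc
    exact (Nat.one_lt_pow (by omega) (by norm_num : 1 < 2)).ne' this
  have hfst : ∀ a, fst hcop ψ a = 1 := fun a => by rw [Subsingleton.elim (α := ZMod 1) a 1, map_one]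
  have hsum : ∑ a ∈ range (1 * 2 ^ K), fst hcop ψ (a : ZMod 1) * snd hcop ψ (a : ZMod (2 ^ K)) = 0 := by
    rw [← sum_char (by positivity) ψ hψ1]
    exact Finset.sum_congr rfl fun a _ => (dec_nat hcop ψ a).symm
  obtain ⟨u, hu⟩ : ∃ u, p ^ 1 - 1 = 2 ^ 2 * u := ⟨(p - 1) / 4, by rw [pow_one]; omega⟩
  have huc : u.Coprime 2 := by
    rw [Nat.coprime_comm, Nat.Prime.coprime_iff_not_dvd Nat.prime_two]
    rw [pow_one] at hu
    omega
  have hA : Adm 2 (p ^ 1) := Or.inr ⟨rfl, by rw [pow_one]; omega⟩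
  have key := unit_main hp (n := 2) (fst hcop ψ) (snd hcop ψ) (by omega) hA (by norm_num) (by omega) (by norm_num)
    hu huc (fun a => by rw [hfst, one_pow]) hprim (by norm_num)
    (fun h => by have := Nat.le_of_dvd (by norm_num) h; omega) (by omega)
    (by rw [← dec_neg, hpar]) hm1 hmp (by norm_num; omega) hsum
  simp only [← dec_nat] at key
  exact key

end Pool.Agent.Q308.GX
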