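import Pool.Agent.Q308.GX.Sound

/-!
# The values for the conductors `2^K`
-/

set_option autoImplicit false

namespace Pool.Agent.Q308.GX

open Finset Polynomial Pool.Agent.Y18.GX Pool.Agent.Q22.GX

/-- the sum over the class of `b` -/
lemma class_core4 {p : ℕ} (hp : p.Prime) (h5 : 5 ≤ p) (h8 : p % 8 = 5)
    {K m : ℕ} (hK : 4 ≤ K) (hmp : m < p)
    {k : Type} [Field k] [CharP k p] (χ₁ : MulChar (ZMod 1) k) (χ₂ : MulChar (ZMod (2 ^ K)) k)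
    (hprim : χ₂ ((1 + 2 ^ (K - 1) : ℕ) : ZMod (2 ^ K)) ≠ 1) (hpar : χ₁ (-1) * χ₂ (-1) = (-1) ^ m)
    (hS : ∑ a ∈ range (1 * 2 ^ K), χ₁ (a : ZMod 1) * χ₂ (a : ZMod (2 ^ K)) *
      Polynomial.aeval ((a : k) / (1 * 2 ^ K : ℕ)) (FF m) = 0)
    (b : ℕ) (hb : b < 2 ^ (K - 2)) (hb1 : b % 4 = 1) (er : List ℕ) (herl : er.length = m)
    (her : Rep er (fun i => (eps (m - 1 - i) : k))) (q : Quad) (hq : Good4 k p (2 ^ (K - 2)) (2 ^ K) b q)
    (hbad : bad4 p (dot er q.1) (dot er q.2.1) (dot er q.2.2.1) (dot er q.2.2.2) = true) : False := by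
  have : Fact p.Prime := ⟨hp⟩
  have hχ : ∀ x : ZMod 1, χ₁ x = 1 := fun x => by rw [Subsingleton.elim x 1, map_one]
  have h2k : ((2 : ℕ) : k) ≠ 0 := by
    intro h0
    have h1 := (CharP.cast_eq_zero_iff k p _).1 h0
    have := Nat.le_of_dvd (by norm_num) h1
    omega
  obtain ⟨u, hu⟩ : ∃ u, p ^ 1 - 1 = 2 ^ 2 * u := ⟨(p - 1) / 4, by rw [pow_one]; omega⟩
  have huc : u.Coprime 2 := by
    rw [Nat.coprime_comm, Nat.Prime.coprime_iff_not_dvd Nat.prime_two]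
    rw [pow_one] at hu
    omega
  have key := class_zero (p := p) (ℓ := 2) (n := 2) (K := K) (N₁ := 1) (g := 1) (m := m) (u := u) χ₁ χ₂
    (by omega) (Or.inr ⟨rfl, by rw [pow_one]; omega⟩) (by norm_num) (by omega) (by norm_num) hu huc
    (fun a => by rw [hχ, one_pow]) hprim (by norm_num) (by norm_num) (by simp) h2k (FF m) _
    (fun x => FF_aeval_refl m x) hpar hS b hb (by simpa using hb1)
  have hξ2 := psi_M_pow' (n := 2) χ₂ (by omega) (by norm_num)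
  have hξ4 := psi_M_pow (n := 2) χ₂ (by omega)
  set ξ := χ₂ ((1 + 2 ^ (K - 2) : ℕ) : ZMod (2 ^ K)) with hξ
  norm_num at hξ2 hξ4
  have hne : ξ ^ 2 ≠ 1 := by
    rw [hξ2]
    exact_mod_cast hprim
  have hm1 : ξ ^ 2 = -1 := by
    have h1 : (ξ ^ 2 - 1) * (ξ ^ 2 + 1) = 0 := by linear_combination hξ4
    rcases mul_eq_zero.1 h1 with h2 | h2
    · exact absurd (sub_eq_zero.1 h2) hne
    · exact eq_neg_of_add_eq_zero_left h2
  have hr : range (1 * 2 ^ 2) = {0, 1, 2, 3} := by decide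
  rw [hr, Finset.sum_insert (by decide), Finset.sum_insert (by decide), Finset.sum_insert (by decide),
    Finset.sum_singleton] at key
  simp only [hχ, one_mul, pow_zero, pow_one] at key
  obtain ⟨⟨hl0, hG0⟩, ⟨hl1, hG1⟩, ⟨hl2, hG2⟩, ⟨hl3, hG3⟩⟩ := hq
  have hb4 := bad4_sound (k := k) (p := p) _ _ _ _ hbad
  have d0 := dot_FF (p := p) m hmp er q.1 _ herl her hG0 hl0
  have d1 := dot_FF (p := p) m hmp er q.2.1 _ herl her hG1 hl1
  have d2 := dot_FF (p := p) m hmp er q.2.2.1 _ herl her hG2 hl2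
  have d3 := dot_FF (p := p) m hmp er q.2.2.2 _ herl her hG3 hl3
  rw [d0, d1, d2, d3] at key
  have hmf : ((m.factorial : ℕ) : k) ≠ 0 := fact_ne (p := p) m hmp
  set a := ((dot er q.1 : ℕ) : k)
  set b := ((dot er q.2.1 : ℕ) : k)
  set c := ((dot er q.2.2.1 : ℕ) : k)
  set d := ((dot er q.2.2.2 : ℕ) : k)
  have hkey : (a - c) + ξ * (b - d) = 0 := by
    have h1 : ((m.factorial : ℕ) : k) ^ 2 * ((a - c) + ξ * (b - d)) = 0 := by
      linear_combination key - ((m.factorial : ℕ) : k) ^ 2 * (c + ξ * d) * hm1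
    exact (mul_eq_zero.1 h1).resolve_left (pow_ne_zero 2 hmf)
  apply hb4
  linear_combination ((a - c) - ξ * (b - d)) * hkey + (b - d) ^ 2 * hm1

lemma eps_init {k : Type*} [Field k] : Rep [1] (fun i => (eps (1 - 1 - i) : k)) :=
  ⟨by
    have h0 : w 0 = 1 := by
      have := w_spec 0
      rw [_root_.bernoulli_zero] at this
      norm_num at this
      exact_mod_cast this
    simp [eps, h0], trivial⟩

/-- what the test gives for one `m` -/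
lemma check_sound {p : ℕ} {E : List (ℕ × ℕ)} (hp : p.Prime) (h5 : 5 ≤ p) (hchk : Checked p E)
    {m : ℕ} (hm1 : 1 ≤ m) (hmp : m < p) (k : Type) [Field k] [CharP k p] :
    ∃ (e : ℕ) (er : List ℕ) (Q4 Q8 : Quad) (j' : ℕ) (Gs : List (ℕ × List Quad)), er.length = m ∧
      Rep er (fun i => (eps (m - 1 - i) : k)) ∧ (m + 1 < p → (e : k) = eps m) ∧
      Good4 k p 2 4 1 Q4 ∧ Good4 k p 2 8 1 Q8 ∧ 16 * (p - 1) ≤ 2 ^ (j' + 2) ∧
      (∀ K, 4 ≤ K → K < j' + 2 → ∃ q ∈ Gs, GoodK k p K q) ∧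
      testL p m e er E Q4 Q8 = true ∧ test4 p m er E Gs = true := by
  have : Fact p.Prime := ⟨hp⟩
  obtain ⟨s, lo, hi, hlo, hhi, hhp, hchk⟩ := hchk m hm1 hmp
  unfold check at hchk
  obtain ⟨F, hFl, hF, hchk⟩ := mkL_sound (k := k) (p := p) 1 1 (by omega) _ hchk
  have h4 : ((4 : ℕ) : k) ≠ 0 := two_pow_ne (p := p) (by omega) 2
  have h8 : ((8 : ℕ) : k) ≠ 0 := two_pow_ne (p := p) (by omega) 3
  obtain ⟨Q4, hQ4, hchk⟩ := mkQ_sound (k := k) (p := p) (by omega) 1 2 4 h4 _ hchk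
  obtain ⟨Q8, hQ8, hchk⟩ := mkQ_sound (k := k) (p := p) (by omega) 1 2 8 h8 _ hchk
  obtain ⟨j', Gs, hj', hGs, hchk⟩ := mkAll4_sound (k := k) (p := p) (by omega) _ s 2 [] le_rfl
    (fun K h1 h2 => by omega) hchk
  rw [Nat.cast_one] at hF
  obtain ⟨e, er, herl, her, he, hT⟩ := loop_sound (k := k) (p := p) F.tail _ hF.tail
    (by rw [List.length_tail, hFl]; omega) (hi - 1) 1 [1] le_rfl rfl eps_init (by omega) hchk m hm1 (by omega) hmp
  rw [Bool.or_eq_true, Bool.and_eq_true, skip, Bool.or_eq_true] at hT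
  replace hT := hT.resolve_left fun h => by
    rcases h with h | h
    · have := Nat.le_of_ble_eq_true h
      omega
    · have := Nat.le_of_ble_eq_true h
      omega
  exact ⟨e, er, Q4, Q8, j', Gs, herl, her, he, hQ4, hQ8, hj', hGs, hT.1, hT.2⟩

/-- the sums for the conductors `2^K`, `K ≥ 4`, `2^K < 16 m` -/
lemma small_core4 {p : ℕ} {E : List (ℕ × ℕ)} (hp : p.Prime) (h5 : 5 ≤ p) (h8 : p % 8 = 5)
    (hchk : Checked p E) {K m : ℕ} (hK : 4 ≤ K) (hm1 : 1 ≤ m) (hmp : m < p) (hsz : 2 ^ K < 16 * m)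
    (hE : (2 ^ K, m) ∉ E)
    {k : Type} [Field k] [CharP k p] (χ₁ : MulChar (ZMod 1) k) (χ₂ : MulChar (ZMod (2 ^ K)) k)
    (hprim : χ₂ ((1 + 2 ^ (K - 1) : ℕ) : ZMod (2 ^ K)) ≠ 1) (hpar : χ₁ (-1) * χ₂ (-1) = (-1) ^ m) :
    ∑ a ∈ range (1 * 2 ^ K), χ₁ (a : ZMod 1) * χ₂ (a : ZMod (2 ^ K)) *
      Polynomial.aeval ((a : k) / (1 * 2 ^ K : ℕ)) (FF m) ≠ 0 := by
  intro hS
  have : Fact p.Prime := ⟨hp⟩
  obtain ⟨e, er, Q4, Q8, j', Gs, herl, her, -, -, -, hj', hGs, -, hT⟩ := check_sound hp h5 hchk hm1 hmp k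
  have hKj : K < j' + 2 := by
    by_contra hcon
    have h1 : 2 ^ (j' + 2) ≤ 2 ^ K := Nat.pow_le_pow_right (by norm_num) (by omega)
    have h2 : 16 * m ≤ 16 * (p - 1) := Nat.mul_le_mul_left _ (by omega)
    omega
  obtain ⟨q, hq, hq1, hgood⟩ := hGs K hK hKj
  have := test4_sound (p := p) m er E Gs hT q hq
  rw [hq1] at this
  rcases this with h | h | h
  · omega
  · exact hE (exc_sound _ _ _ h)
  · obtain ⟨r, hr, hbad⟩ := anyQ_sound (p := p) er _ h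
    obtain ⟨b, hb, hb1, hg⟩ := hgood r hr
    exact class_core4 hp h5 h8 hK hmp χ₁ χ₂ hprim hpar hS b hb hb1 er herl her r hg hbad

lemma chi_even {k : Type*} [Field k] {K : ℕ} (hK : 1 ≤ K) (χ : MulChar (ZMod (2 ^ K)) k) (a : ℕ) (ha : a % 2 = 0) :
    χ (a : ZMod (2 ^ K)) = 0 := by
  apply MulChar.map_nonunit
  rw [ZMod.isUnit_iff_coprime]
  intro h
  have h1 : Nat.Coprime a 2 := h.coprime_dvd_right (dvd_pow_self 2 (by omega))
  have h2 : 2 ∣ Nat.gcd a 2 := Nat.dvd_gcd (Nat.dvd_of_mod_eq_zero ha) dvd_rfl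
  rw [h1] at h2
  norm_num at h2

lemma two_ne {p : ℕ} (hp : p.Prime) (h5 : 5 ≤ p) (k : Type) [Field k] [CharP k p] : (2 : k) ≠ 0 := by
  have : Fact p.Prime := ⟨hp⟩
  exact_mod_cast two_pow_ne (k := k) (p := p) (by omega) 1

lemma parity_odd {p : ℕ} (hp : p.Prime) (h5 : 5 ≤ p) {k : Type} [Field k] [CharP k p] {m : ℕ}
    (h : (-1 : k) = (-1) ^ m) : m % 2 = 1 := by
  have h2 := two_ne hp h5 k
  rcases Nat.even_or_odd m with h1 | h1
  · rw [h1.neg_one_pow] at h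
    exfalso
    apply h2
    linear_combination -h
  · exact Nat.odd_iff.1 h1

/-- the sums for the conductor `4` -/
lemma low_core2 {p : ℕ} {E : List (ℕ × ℕ)} (hp : p.Prime) (h5 : 5 ≤ p)
    (hchk : Checked p E) {m : ℕ} (hm1 : 1 ≤ m) (hmp : m < p) (hE : (4, m) ∉ E)
    {k : Type} [Field k] [CharP k p] (χ₁ : MulChar (ZMod 1) k) (χ₂ : MulChar (ZMod (2 ^ 2)) k)
    (hprim : χ₂ ((1 + 2 ^ (2 - 1) : ℕ) : ZMod (2 ^ 2)) ≠ 1) (hpar : χ₁ (-1) * χ₂ (-1) = (-1) ^ m) :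
    ∑ a ∈ range (1 * 2 ^ 2), χ₁ (a : ZMod 1) * χ₂ (a : ZMod (2 ^ 2)) *
      Polynomial.aeval ((a : k) / (1 * 2 ^ 2 : ℕ)) (FF m) ≠ 0 := by
  have : Fact p.Prime := ⟨hp⟩
  obtain ⟨e, er, Q4, Q8, j', Gs, herl, her, -, hQ4, -, -, -, hT, -⟩ := check_sound hp h5 hchk hm1 hmp k
  have hχ : ∀ x : ZMod 1, χ₁ x = 1 := fun x => by rw [Subsingleton.elim x 1, map_one]
  have h3 : χ₂ ((3 : ℕ) : ZMod (2 ^ 2)) = -1 := by
    have h1 : χ₂ ((3 : ℕ) : ZMod (2 ^ 2)) ^ 2 = 1 := by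
      rw [← map_pow]
      have : (((3 : ℕ) : ZMod (2 ^ 2))) ^ 2 = 1 := by decide
      rw [this, map_one]
    have h2 : (χ₂ ((3 : ℕ) : ZMod (2 ^ 2)) - 1) * (χ₂ ((3 : ℕ) : ZMod (2 ^ 2)) + 1) = 0 := by linear_combination h1
    rcases mul_eq_zero.1 h2 with h4 | h4
    · exact absurd (sub_eq_zero.1 h4) hprim
    · exact eq_neg_of_add_eq_zero_left h4
  have hneg : (-1 : ZMod (2 ^ 2)) = ((3 : ℕ) : ZMod (2 ^ 2)) := by decide
  rw [hχ, one_mul, hneg, h3] at hpar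
  have hm := parity_odd hp h5 hpar
  have h1' : χ₂ ((1 : ℕ) : ZMod (2 ^ 2)) = 1 := by rw [Nat.cast_one, map_one]
  have h0' : χ₂ ((0 : ℕ) : ZMod (2 ^ 2)) = 0 := chi_even (by norm_num) χ₂ 0 rfl
  have h2' : χ₂ ((2 : ℕ) : ZMod (2 ^ 2)) = 0 := chi_even (by norm_num) χ₂ 2 rfl
  have hr : range (1 * 2 ^ 2) = {0, 1, 2, 3} := by decide
  rw [hr, Finset.sum_insert (by decide), Finset.sum_insert (by decide), Finset.sum_insert (by decide),
    Finset.sum_singleton, h0', h1', h2', h3]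
  simp only [hχ, one_mul, zero_mul, mul_zero, zero_add]
  obtain ⟨⟨hl0, hG0⟩, ⟨hl1, hG1⟩, -, -⟩ := hQ4
  have d0 := dot_FF (p := p) m hmp er Q4.1 _ herl her hG0 hl0
  have d1 := dot_FF (p := p) m hmp er Q4.2.1 _ herl her hG1 hl1
  norm_num at d0 d1 ⊢
  rw [d0, d1]
  have hmf : ((m.factorial : ℕ) : k) ≠ 0 := fact_ne (p := p) m hmp
  unfold testL at hT
  rw [Bool.and_eq_true, Bool.or_eq_true, Bool.or_eq_true] at hT
  rcases hT.1 with h | h | h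
  · have := Nat.eq_of_beq_eq_true h
    have h' : m % 2 = 0 := this
    omega
  · exact absurd (exc_sound _ _ _ h) hE
  · have h9 := neq_sound (k := k) (p := p) _ _ h
    intro h0
    apply h9
    have h10 : ((m.factorial : ℕ) : k) ^ 2 * ((dot er Q4.1 : ℕ) - (dot er Q4.2.1 : ℕ)) = 0 := by
      linear_combination h0
    exact sub_eq_zero.1 ((mul_eq_zero.1 h10).resolve_left (pow_ne_zero 2 hmf))

/-- the sums for the conductor `8` -/
lemma low_core3 {p : ℕ} {E : List (ℕ × ℕ)} (hp : p.Prime) (h5 : 5 ≤ p)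
    (hchk : Checked p E) {m : ℕ} (hm1 : 1 ≤ m) (hmp : m < p) (hE : (8, m) ∉ E)
    {k : Type} [Field k] [CharP k p] (χ₁ : MulChar (ZMod 1) k) (χ₂ : MulChar (ZMod (2 ^ 3)) k)
    (hprim : χ₂ ((1 + 2 ^ (3 - 1) : ℕ) : ZMod (2 ^ 3)) ≠ 1) (hpar : χ₁ (-1) * χ₂ (-1) = (-1) ^ m) :
    ∑ a ∈ range (1 * 2 ^ 3), χ₁ (a : ZMod 1) * χ₂ (a : ZMod (2 ^ 3)) *
      Polynomial.aeval ((a : k) / (1 * 2 ^ 3 : ℕ)) (FF m) ≠ 0 := by
  have : Fact p.Prime := ⟨hp⟩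
  obtain ⟨e, er, Q4, Q8, j', Gs, herl, her, -, -, hQ8, -, -, hT, -⟩ := check_sound hp h5 hchk hm1 hmp k
  have hχ : ∀ x : ZMod 1, χ₁ x = 1 := fun x => by rw [Subsingleton.elim x 1, map_one]
  have h5' : χ₂ ((5 : ℕ) : ZMod (2 ^ 3)) = -1 := by
    have h1 : χ₂ ((5 : ℕ) : ZMod (2 ^ 3)) ^ 2 = 1 := by
      rw [← map_pow]
      have : (((5 : ℕ) : ZMod (2 ^ 3))) ^ 2 = 1 := by decide
      rw [this, map_one]
    have h2 : (χ₂ ((5 : ℕ) : ZMod (2 ^ 3)) - 1) * (χ₂ ((5 : ℕ) : ZMod (2 ^ 3)) + 1) = 0 := by linear_combination h1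
    rcases mul_eq_zero.1 h2 with h4 | h4
    · exact absurd (sub_eq_zero.1 h4) hprim
    · exact eq_neg_of_add_eq_zero_left h4
  have h7' : χ₂ ((7 : ℕ) : ZMod (2 ^ 3)) = (-1) ^ m := by
    have hneg : (-1 : ZMod (2 ^ 3)) = ((7 : ℕ) : ZMod (2 ^ 3)) := by decide
    rw [hχ, one_mul, hneg] at hpar
    exact hpar
  have h3' : χ₂ ((3 : ℕ) : ZMod (2 ^ 3)) = -(-1) ^ m := by
    have h1 : ((3 : ℕ) : ZMod (2 ^ 3)) = ((5 : ℕ) : ZMod (2 ^ 3)) * ((7 : ℕ) : ZMod (2 ^ 3)) := by decide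
    rw [h1, map_mul, h5', h7']
    ring
  have h1' : χ₂ ((1 : ℕ) : ZMod (2 ^ 3)) = 1 := by rw [Nat.cast_one, map_one]
  have h0' : χ₂ ((0 : ℕ) : ZMod (2 ^ 3)) = 0 := chi_even (by norm_num) χ₂ 0 rfl
  have h2' : χ₂ ((2 : ℕ) : ZMod (2 ^ 3)) = 0 := chi_even (by norm_num) χ₂ 2 rfl
  have h4' : χ₂ ((4 : ℕ) : ZMod (2 ^ 3)) = 0 := chi_even (by norm_num) χ₂ 4 rfl
  have h6' : χ₂ ((6 : ℕ) : ZMod (2 ^ 3)) = 0 := chi_even (by norm_num) χ₂ 6 rfl
  have hr : range (1 * 2 ^ 3) = {0, 1, 2, 3, 4, 5, 6, 7} := by decide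
  rw [hr, Finset.sum_insert (by decide), Finset.sum_insert (by decide), Finset.sum_insert (by decide),
    Finset.sum_insert (by decide), Finset.sum_insert (by decide), Finset.sum_insert (by decide),
    Finset.sum_insert (by decide), Finset.sum_singleton, h0', h1', h2', h3', h4', h5', h6', h7']
  simp only [hχ, one_mul, zero_mul, mul_zero, zero_add]
  obtain ⟨⟨hl0, hG0⟩, ⟨hl1, hG1⟩, ⟨hl2, hG2⟩, ⟨hl3, hG3⟩⟩ := hQ8
  have d0 := dot_FF (p := p) m hmp er Q8.1 _ herl her hG0 hl0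
  have d1 := dot_FF (p := p) m hmp er Q8.2.1 _ herl her hG1 hl1
  have d2 := dot_FF (p := p) m hmp er Q8.2.2.1 _ herl her hG2 hl2
  have d3 := dot_FF (p := p) m hmp er Q8.2.2.2 _ herl her hG3 hl3
  norm_num at d0 d1 d2 d3 ⊢
  rw [d0, d1, d2, d3]
  have hmf : ((m.factorial : ℕ) : k) ≠ 0 := fact_ne (p := p) m hmp
  unfold testL at hT
  simp only [Bool.and_eq_true, Bool.or_eq_true] at hT
  obtain ⟨-, hT1, hT2, -⟩ := hT
  intro h0
  rcases Nat.even_or_odd m with hm | hm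
  · rw [hm.neg_one_pow] at h0
    rcases hT1 with h | h | h
    · exact hE (exc_sound _ _ _ h)
    · have := Nat.eq_of_beq_eq_true h
      have h' : m % 2 = 1 := this
      have := Nat.even_iff.1 hm
      omega
    · have h9 := neq_sound (k := k) (p := p) _ _ h
      apply h9
      rw [cadd, cadd]
      have h10 : ((m.factorial : ℕ) : k) ^ 2 * (((dot er Q8.1 : ℕ) + (dot er Q8.2.2.2 : ℕ)) -
          ((dot er Q8.2.1 : ℕ) + (dot er Q8.2.2.1 : ℕ))) = 0 := by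
        linear_combination h0
      exact sub_eq_zero.1 ((mul_eq_zero.1 h10).resolve_left (pow_ne_zero 2 hmf))
  · rw [hm.neg_one_pow] at h0
    rcases hT2 with h | h | h
    · exact hE (exc_sound _ _ _ h)
    · have := Nat.eq_of_beq_eq_true h
      have h' : m % 2 = 0 := this
      have := Nat.odd_iff.1 hm
      omega
    · have h9 := neq_sound (k := k) (p := p) _ _ h
      apply h9
      rw [cadd, cadd]
      have h10 : ((m.factorial : ℕ) : k) ^ 2 * (((dot er Q8.1 : ℕ) + (dot er Q8.2.1 : ℕ)) -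
          ((dot er Q8.2.2.1 : ℕ) + (dot er Q8.2.2.2 : ℕ))) = 0 := by
        linear_combination h0
      exact sub_eq_zero.1 ((mul_eq_zero.1 h10).resolve_left (pow_ne_zero 2 hmf))

end Pool.Agent.Q308.GX
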