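import Pool.Agent.Q22.GX.Low
import Pool.Agent.Q308.GX.Chk

/-!
# Soundness of the tests
-/

set_option autoImplicit false
set_option linter.unusedSectionVars false

namespace Pool.Agent.Q308.GX

open Finset Polynomial Pool.Agent.Y18.GX Pool.Agent.Q22.GX

section
variable {k : Type*} [Field k] {p : ℕ} [Fact p.Prime] [CharP k p]

/-- the lists for the class of `b` -/
def Good4 (k : Type*) [Field k] (p M N b : ℕ) (q : Quad) : Prop :=
  (q.1.length = p - 1 ∧ Rep q.1 (fun i => gg (((b + M * 0 : ℕ) : k) / (N : ℕ)) (i + 1))) ∧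
    (q.2.1.length = p - 1 ∧ Rep q.2.1 (fun i => gg (((b + M * 1 : ℕ) : k) / (N : ℕ)) (i + 1))) ∧
    (q.2.2.1.length = p - 1 ∧ Rep q.2.2.1 (fun i => gg (((b + M * 2 : ℕ) : k) / (N : ℕ)) (i + 1))) ∧
    (q.2.2.2.length = p - 1 ∧ Rep q.2.2.2 (fun i => gg (((b + M * 3 : ℕ) : k) / (N : ℕ)) (i + 1)))

include p in
lemma mkQ_sound (hp : 3 ≤ p) (b M N : ℕ) (hN : (N : k) ≠ 0) (cont : Quad → Bool)
    (h : mkQ p b M N cont = true) : ∃ q : Quad, Good4 k p M N b q ∧ cont q = true := by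
  unfold mkQ at h
  obtain ⟨x0, y0, hx0, h⟩ := mkX_sound (k := k) (p := p) _ _ _ _ hN _ h
  obtain ⟨G0, hl0, hG0, h⟩ := mkL_sound (k := k) (p := p) _ _ hp _ h
  obtain ⟨x1, y1, hx1, h⟩ := mkX_sound (k := k) (p := p) _ _ _ _ hN _ h
  obtain ⟨G1, hl1, hG1, h⟩ := mkL_sound (k := k) (p := p) _ _ hp _ h
  obtain ⟨x2, y2, hx2, h⟩ := mkX_sound (k := k) (p := p) _ _ _ _ hN _ h
  obtain ⟨G2, hl2, hG2, h⟩ := mkL_sound (k := k) (p := p) _ _ hp _ h
  obtain ⟨x3, y3, hx3, h⟩ := mkX_sound (k := k) (p := p) _ _ _ _ hN _ h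
  obtain ⟨G3, hl3, hG3, h⟩ := mkL_sound (k := k) (p := p) _ _ hp _ h
  rw [hx0] at hG0
  rw [hx1] at hG1
  rw [hx2] at hG2
  rw [hx3] at hG3
  exact ⟨_, ⟨⟨hl0, hG0⟩, ⟨hl1, hG1⟩, ⟨hl2, hG2⟩, ⟨hl3, hG3⟩⟩, h⟩

/-- a list of classes -/
def GoodL (k : Type*) [Field k] (p M N : ℕ) (l : List Quad) : Prop :=
  ∀ q ∈ l, ∃ b, b < M ∧ b % 4 = 1 ∧ Good4 k p M N b q

include p in
lemma mkBs_sound (hp : 3 ≤ p) (M N : ℕ) (hN : (N : k) ≠ 0) (cont : List Quad → Bool) :
    ∀ (bs : List ℕ) (acc : List Quad), GoodL k p M N acc → mkBs p M N cont bs acc = true →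
      ∃ l : List Quad, GoodL k p M N l ∧ cont l = true
  | [], acc, hacc, h => ⟨acc, hacc, h⟩
  | b :: bs, acc, hacc, h => by
    rw [mkBs, Bool.and_eq_true, Bool.and_eq_true] at h
    obtain ⟨⟨h1, h2⟩, h3⟩ := h
    obtain ⟨q, hq, h4⟩ := mkQ_sound (k := k) hp b M N hN _ h3
    refine mkBs_sound hp M N hN cont bs (q :: acc) ?_ h4
    intro r hr
    rcases List.mem_cons.1 hr with h5 | h5
    · subst h5
      exact ⟨b, Nat.le_of_ble_eq_true h1, Nat.eq_of_beq_eq_true h2, hq⟩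
    · exact hacc r h5

/-- the entry for the conductor `2^K` -/
def GoodK (k : Type*) [Field k] (p K : ℕ) (q : ℕ × List Quad) : Prop :=
  q.1 = 2 ^ K ∧ GoodL k p (2 ^ (K - 2)) (2 ^ K) q.2

include p in
lemma two_pow_ne (hp : 3 ≤ p) (K : ℕ) : ((2 ^ K : ℕ) : k) ≠ 0 := by
  have hp' := (Fact.out : p.Prime)
  intro h0
  have h1 := (CharP.cast_eq_zero_iff k p _).1 h0
  have := Nat.le_of_dvd (by norm_num) (hp'.dvd_of_dvd_pow h1)
  omega

include p in
lemma mkAll4_sound (hp : 3 ≤ p) (cont : List (ℕ × List Quad) → Bool) :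
    ∀ (s j : ℕ) (acc : List (ℕ × List Quad)), 2 ≤ j →
      (∀ K, 4 ≤ K → K < j + 2 → ∃ q ∈ acc, GoodK k p K q) →
      mkAll4 p cont s (2 ^ j) acc = true →
      ∃ (j' : ℕ) (acc' : List (ℕ × List Quad)), 16 * (p - 1) ≤ 2 ^ (j' + 2) ∧
        (∀ K, 4 ≤ K → K < j' + 2 → ∃ q ∈ acc', GoodK k p K q) ∧ cont acc' = true
  | 0, j, acc, _, hacc, h => by
    rw [mkAll4, Bool.and_eq_true] at h
    have h1 := Nat.le_of_ble_eq_true h.1
    refine ⟨j, acc, ?_, hacc, h.2⟩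
    have h2 : 2 ^ (j + 2) = 4 * 2 ^ j := by rw [pow_add]; ring
    rw [h2]
    exact h1
  | s + 1, j, acc, hj, hacc, h => by
    rw [mkAll4, force_eq] at h
    have h2 : 4 * 2 ^ j = 2 ^ (j + 2) := by rw [pow_add]; ring
    have h3 : 2 * 2 ^ j = 2 ^ (j + 1) := by rw [pow_succ]; ring
    rw [h2] at h
    obtain ⟨l, hl, h⟩ := mkBs_sound (k := k) hp (2 ^ j) (2 ^ (j + 2)) (two_pow_ne (p := p) hp _) _ _ []
      (fun q hq => by simp at hq) h
    rw [force_eq, h3] at h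
    refine mkAll4_sound hp cont s (j + 1) _ (by omega) ?_ h
    intro K hK1 hK2
    rcases Nat.lt_or_ge K (j + 2) with h4 | h4
    · obtain ⟨q, hq, hgood⟩ := hacc K hK1 h4
      exact ⟨q, List.mem_cons_of_mem _ hq, hgood⟩
    · have h5 : K = j + 2 := by omega
      subst h5
      exact ⟨_, List.mem_cons_self, rfl, hl⟩

lemma anyQ_sound (er : List ℕ) : ∀ (l : List Quad), anyQ p er l = true →
    ∃ q ∈ l, bad4 p (dot er q.1) (dot er q.2.1) (dot er q.2.2.1) (dot er q.2.2.2) = true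
  | [], h => by simp [anyQ] at h
  | r :: l, h => by
    rw [anyQ, Bool.or_eq_true] at h
    rcases h with h | h
    · exact ⟨r, List.mem_cons_self, h⟩
    · obtain ⟨q, hq, h1⟩ := anyQ_sound er l h
      exact ⟨q, List.mem_cons_of_mem _ hq, h1⟩

lemma test4_sound (m : ℕ) (er : List ℕ) (E : List (ℕ × ℕ)) : ∀ (Gs : List (ℕ × List Quad)),
    test4 p m er E Gs = true → ∀ q ∈ Gs, 16 * m ≤ q.1 ∨ exc E q.1 m = true ∨ anyQ p er q.2 = true
  | [], _, q, hq => by simp at hq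
  | r :: Gs, h, q, hq => by
    rw [test4, Bool.and_eq_true, Bool.or_eq_true, Bool.or_eq_true] at h
    rcases List.mem_cons.1 hq with h1 | h1
    · subst h1
      rcases h.1 with h2 | h2
      · exact Or.inl (Nat.le_of_ble_eq_true h2)
      · exact Or.inr h2
    · exact test4_sound m er E Gs h.2 q h1

lemma exc_sound (N m : ℕ) : ∀ E : List (ℕ × ℕ), exc E N m = true → (N, m) ∈ E
  | [], h => by simp [exc] at h
  | q :: l, h => by
    rw [exc, Bool.or_eq_true, Bool.and_eq_true] at h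
    rcases h with ⟨h1, h2⟩ | h
    · have e1 := Nat.eq_of_beq_eq_true h1
      have e2 := Nat.eq_of_beq_eq_true h2
      have : q = (N, m) := Prod.ext e1 e2
      rw [this]
      exact List.mem_cons_self
    · exact List.mem_cons_of_mem _ (exc_sound N m l h)

lemma cadd (a b : ℕ) : ((Nat.add a b : ℕ) : k) = (a : k) + b := Nat.cast_add a b

lemma cmul (a b : ℕ) : ((Nat.mul a b : ℕ) : k) = (a : k) * b := Nat.cast_mul a b

lemma neq_sound (a b : ℕ) (h : neq p a b = true) : (a : k) ≠ b := by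
  unfold neq at h
  have h1 := congrArg Bool.not h
  rw [Bool.not_not] at h1
  have h2 := Nat.ne_of_beq_eq_false h1
  intro h0
  apply h2
  exact (CharP.natCast_eq_natCast k p).1 h0

lemma bad4_sound (c0 c1 c2 c3 : ℕ) (h : bad4 p c0 c1 c2 c3 = true) :
    ((c0 : k) - c2) ^ 2 + ((c1 : k) - c3) ^ 2 ≠ 0 := by
  unfold bad4 at h
  rw [force_eq, force_eq, force_eq, force_eq] at h
  intro h0
  have h1 := congrArg Bool.not h
  rw [Bool.not_not] at h1
  have h2 := Nat.ne_of_beq_eq_false h1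
  apply h2
  have e0 := cast_mod (k := k) p c0
  have e1 := cast_mod (k := k) p c1
  have e2 := cast_mod (k := k) p c2
  have e3 := cast_mod (k := k) p c3
  refine (CharP.natCast_eq_natCast k p).1 ?_
  simp only [cadd, cmul, e0, e1, e2, e3]
  push_cast
  linear_combination h0

end

end Pool.Agent.Q308.GX
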